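import Pool.Agent.GCI.LFam
import Pool.Agent.GCI.ChkZ

/-!
# Trees whose 4-vertices induce a forest of stars have game chromatic index at most 5

Let `G` be a finite tree with maximal degree `4` such that the subgraph induced by the vertices of degree
`4` is a forest of stars. Then Alice, who moves first, has a winning strategy in the edge colouring game
with `5` colours, and so the game chromatic index of `G` is at most `5`.

Proof. The pieces of the uncoloured part of the tree, with the colours at their vertices, are described
by labelled trees (`Dat`, `Fo`): every vertex knows whether it has degree at most `3`, or is the centre or
a leaf of one of the stars of 4-vertices, and the colours of the coloured edges at it. An uncoloured edge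
is immune if no colouring of its neighbours can make it dead; immune edges are cut, which leaves an edge
`*` at one end and an edge `?` at the other end. `Game`, `Rep`, `Res`, `Red`, `Start`: Alice wins if there is a
family of good pieces such that every move of Bob in a good piece, and every colouring of a cut edge,
can be answered by Alice (or needs no answer), and such that she has a neutral move in every good piece
with an edge (`Fam`). `Tab2`: stars are pieces with at most three vertices on every path from the centre
on which anything is recorded (the root, its children, and the children of the children); of the longer
branches one only records that exactly one coloured edge is hidden in them. `TabList` is a list of `503`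
stars, up to permutations of the colours. `LFam`: a list which satisfies the finite conditions `Tab` gives a
good family. `Chk*`: the list satisfies these conditions (finite computation in the kernel).
-/

set_option autoImplicit false

namespace Pool.Agent.Results.MP_f1ab9c_co.ForestOfStars

open Pool.Agent.GCI

theorem result {V : Type} [Fintype V] [DecidableEq V] (G : SimpleGraph V) [DecidableRel G.Adj]
    (hG : G.IsTree) (hd : G.maxDegree = 4)
    (hs : IsForestOfStars (G.induce {v | G.degree v = 4})) :
    -- Alice wins the game with five colours from the empty colouring, she is to move
    Wins G true (fun _ => none : Col V 5) ∧
    -- the game chromatic index is at most five
    gameIndex G ≤ 5 := by
  obtain ⟨lab, hl⟩ := exists_lab hG hd hs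
  have h := alice_wins hG hl (fam theTab)
  exact ⟨h, Nat.sInf_le h⟩

end Pool.Agent.Results.MP_f1ab9c_co.ForestOfStars
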